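import Pool.Agent.Helper50.LN6.QDefs
import Pool.Agent.Helper93.L2.RootSecH
import Pool.Agent.Helper93.L2.RootN
import Pool.Agent.Helper2.LN.LogLemma
import Pool.Agent.Helper2.LN.GhatConn

/-!
# LN6 (MP_730da0_ag), end of Q2: all `s_i` equal for the Q2 system implies `f` constant

Paper proof.  `N = k(k-1)`.  `gp` gives continuous invariant sections `X φ` over `Y`; `(X φ (q,l)).1 exp(-l/N)` is
an `N`-th root of unity, so constant on the connected `Ghat k`.  The sections with constant `1` are `n` in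
number; their second components are functions `Z_i` on `Ghat k`, the `n` roots of the polynomial
`f (exp(-l/N) · z)`, holomorphic on curves.  `(Z_i - Z_0)/(Z_1 - Z_0)` omits `0, 1`, so it is constant
(`omit_const`), `Z_i = y c_i`; the discriminant is `1`: `y^(n(n-1)) Dsc(c) = 1`, so `y` is constant.  So the
polynomial `f (exp(-l/N) · z)` is constant on `Ghat k`; `(z, 0) ∈ Ghat k` for `z ∈ SG k`.
-/

namespace Pool.Agent.Helper50.LN6

open Polynomial Pool.Agent.Helper2.LN Pool.Agent.Helper93.LN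

variable {k n : ℕ}

theorem cf_smul (hk : 2 ≤ k) (q : Fin k → ℂ) (a : ℂ) (ha : a ≠ 0) :
    cf (fun i => a * q i) = scale a (cf q) := by
  apply pol_inj k
  apply Polynomial.funext
  intro y
  have h1 : y = a * (a⁻¹ * y) := by
    rw [← mul_assoc, mul_inv_cancel₀ ha, one_mul]
  have hm : mean (fun i => a * q i) = a * mean q := by
    unfold mean
    rw [← Finset.mul_sum, mul_div_assoc]
  have h3 : (pol k (scale a (cf q))).eval y = a ^ k * (cpoly q).eval (a⁻¹ * y) := by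
    conv_lhs => rw [h1]
    rw [eval_scale hk, pol_cf hk]
  rw [h3, pol_cf hk]
  unfold cpoly
  rw [eval_prod, eval_prod]
  have h2 : a ^ k = ∏ _i : Fin k, a := by simp
  rw [h2, ← Finset.prod_mul_distrib]
  refine Finset.prod_congr rfl fun i _ => ?_
  simp only [eval_sub, eval_X, eval_C]
  rw [hm]
  have h4 : a * (a⁻¹ * y) = y := h1.symm
  linear_combination -h4

/-- `exp(-l/(k(k-1)))` -/
noncomputable def al (k : ℕ) (l : ℂ) : ℂ := Complex.exp (-(l / ((k * (k - 1) : ℕ) : ℂ)))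

theorem al_ne (k : ℕ) (l : ℂ) : al k l ≠ 0 := Complex.exp_ne_zero _

theorem al_zero (k : ℕ) : al k 0 = 1 := by
  unfold al
  rw [zero_div, neg_zero, Complex.exp_zero]

theorem N_ne (hk : 2 ≤ k) : k * (k - 1) ≠ 0 := by
  have h2 : 0 < k * (k - 1) := Nat.mul_pos (by omega) (by omega)
  omega

theorem al_pow (hk : 2 ≤ k) (l : ℂ) : al k l ^ (k * (k - 1)) = Complex.exp (-l) := by
  unfold al
  rw [← Complex.exp_nat_mul]
  congr 1
  have h : ((k * (k - 1) : ℕ) : ℂ) ≠ 0 := Nat.cast_ne_zero.2 (N_ne hk)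
  field_simp

theorem differentiable_al (k : ℕ) : Differentiable ℂ (al k) := by
  unfold al
  fun_prop

/-- The point `exp(-l/N) · z` of `SG k` for `(z, l) ∈ Ghat k`. -/
noncomputable def el (k : ℕ) (p : (Fin (k - 1) → ℂ) × ℂ) : Fin (k - 1) → ℂ := scale (al k p.2) p.1

theorem el_mem (hk : 2 ≤ k) (p : (Fin (k - 1) → ℂ) × ℂ) (hp : p ∈ Ghat k) : el k p ∈ SG k := by
  obtain ⟨q, hq1, -, hq3⟩ := Ghat_lift hk p hp
  unfold el
  rw [← hq3, ← cf_smul hk q _ (al_ne k _)]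
  show (pol k (cf (fun i => al k p.2 * q i))).discr = 1
  rw [discr_cf hk, Dsc_smul, al_pow hk, ← hq1.2, ← Complex.exp_add, neg_add_cancel, Complex.exp_zero]

theorem differentiable_el (k : ℕ) : Differentiable ℂ (el k) := by
  rw [differentiable_pi]
  intro j
  unfold el scale
  have h1 : Differentiable ℂ fun p : (Fin (k - 1) → ℂ) × ℂ => al k p.2 :=
    (differentiable_al k).comp differentiable_snd
  have h2 : Differentiable ℂ fun p : (Fin (k - 1) → ℂ) × ℂ => p.1 j := by fun_prop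
  exact (h1.pow _).mul h2

theorem el_zero (z : Fin (k - 1) → ℂ) : el k (z, 0) = z := by
  unfold el
  simp only [al_zero]
  exact Pool.Agent.Helper2.LN.scale_one z

theorem mem_Ghat_zero {z : Fin (k - 1) → ℂ} (hz : z ∈ SG k) : ((z, 0) : (Fin (k - 1) → ℂ) × ℂ) ∈ Ghat k := by
  show Complex.exp 0 = (pol k z).discr
  rw [show (pol k z).discr = 1 from hz, Complex.exp_zero]

theorem sc_eq_el (hk : 2 ≤ k) (q : Fin k → ℂ) (l : ℂ) :
    sc (al k l)⁻¹ q = el k (cf q, l) := by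
  unfold sc el
  rw [inv_inv, cf_smul hk q _ (al_ne k _)]

/-- Continuous root functions on `Ghat k` for `(z, l) ↦ f (exp(-l/N) z)` are holomorphic. -/
theorem holG_root (hk : 2 ≤ k) (hn : 2 ≤ n) (f : SG k → SG n) (hf : HoloSG f)
    (Z : (Fin (k - 1) → ℂ) × ℂ → ℂ) (hZ : ContinuousOn Z (Ghat k))
    (hr : ∀ p (hp : p ∈ Ghat k), (pol n (f ⟨el k p, el_mem hk p hp⟩ : Fin (n - 1) → ℂ)).eval (Z p) = 0) :
    HolG k Z := by
  intro Ω γ hΩ hγ hm t0 ht0
  have hel : DifferentiableOn ℂ (fun t => el k (γ t)) Ω :=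
    (differentiable_el k).comp_differentiableOn hγ
  obtain ⟨U, hU, hzU, F, hF, hFf⟩ := hf ⟨el k (γ t0), el_mem hk _ (hm t0 ht0)⟩
  have hDo : IsOpen (Ω ∩ (fun t => el k (γ t)) ⁻¹' U) := hel.continuousOn.isOpen_inter_preimage hΩ hU
  have h1 : DifferentiableOn ℂ (fun t => Z (γ t)) (Ω ∩ (fun t => el k (γ t)) ⁻¹' U) := by
    refine Pool.Agent.Helper93.L2.root_diff_n hn _ hDo (fun t => F (el k (γ t))) ?_ ?_ _ ?_ ?_
    · exact hF.comp (hel.mono Set.inter_subset_left) fun t ht => ht.2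
    · intro t ht
      have h := hFf ⟨el k (γ t), el_mem hk _ (hm t ht.1)⟩ ht.2
      show F (el k (γ t)) ∈ G0 n
      rw [← h]
      exact SG_subset_G0 n (f _).2
    · exact (hZ.comp hγ.continuousOn hm).mono Set.inter_subset_left
    · intro t ht
      have h := hFf ⟨el k (γ t), el_mem hk _ (hm t ht.1)⟩ ht.2
      have h2 := hr (γ t) (hm t ht.1)
      rw [h] at h2
      exact h2
  exact (h1.differentiableAt (hDo.mem_nhds ⟨ht0, hzU⟩)).differentiableWithinAt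

/-- Holomorphic, pairwise distinct functions on `Ghat k` with sum zero are proportional to constants. -/
theorem proportional (hk : 4 < k) (hn : 3 ≤ n) (Z : Fin n → (Fin (k - 1) → ℂ) × ℂ → ℂ)
    (hc : ∀ i, ContinuousOn (Z i) (Ghat k)) (hh : ∀ i, HolG k (Z i))
    (hi : ∀ p ∈ Ghat k, Function.Injective fun i => Z i p)
    (hs : ∀ p ∈ Ghat k, ∑ i, Z i p = 0) (hne : (Ghat k).Nonempty) :
    ∃ (c : Fin n → ℂ) (y : (Fin (k - 1) → ℂ) × ℂ → ℂ), Function.Injective c ∧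
      ContinuousOn y (Ghat k) ∧ (∀ p ∈ Ghat k, y p ≠ 0) ∧
      ∀ i, ∀ p ∈ Ghat k, Z i p = y p * c i := by
  classical
  have hk2 : 2 ≤ k := by omega
  have hconn := Ghat_preconnected hk2
  have hL := logProp hk
  set i0 : Fin n := ⟨0, by omega⟩ with hi0
  set i1 : Fin n := ⟨1, by omega⟩ with hi1
  have h01 : i0 ≠ i1 := by rw [hi0, hi1]; intro h; simp at h
  set y : (Fin (k - 1) → ℂ) × ℂ → ℂ := fun p => Z i1 p - Z i0 p with hy
  have hyc : ContinuousOn y (Ghat k) := (hc i1).sub (hc i0)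
  have hyh : HolG k y := fun Ω γ hΩ hγ hm =>
    (hh i1 Ω γ hΩ hγ hm).sub (hh i0 Ω γ hΩ hγ hm)
  have hy0 : ∀ p ∈ Ghat k, y p ≠ 0 := by
    intro p hp h
    exact h01 ((hi p hp (sub_eq_zero.1 h)).symm)
  obtain ⟨p0, hp0⟩ := hne
  set c' : Fin n → ℂ := fun i => (Z i p0 - Z i0 p0) / y p0 with hc'
  have hconst : ∀ i, ∀ p ∈ Ghat k, Z i p - Z i0 p = y p * c' i := by
    intro i p hp
    by_cases hii : i = i0
    · subst hii
      simp [hc']
    by_cases hi' : i = i1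
    · subst hi'
      have : c' i1 = 1 := by
        simp only [hc', hy]
        exact div_self (hy0 p0 hp0)
      rw [this, mul_one]
    have h1 := omit_const hk2 hconn hL (v := fun p => (Z i p - Z i0 p) / y p)
      (((hc i).sub (hc i0)).div hyc hy0)
      (fun Ω γ hΩ hγ hm => ((hh i Ω γ hΩ hγ hm).sub (hh i0 Ω γ hΩ hγ hm)).div
        (hyh Ω γ hΩ hγ hm) (fun t ht => hy0 _ (hm t ht)))
      (fun p hp h => by
        rcases div_eq_zero_iff.1 h with h | h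
        · exact hii (hi p hp (sub_eq_zero.1 h))
        · exact hy0 p hp h)
      (fun p hp h => by
        rw [div_eq_one_iff_eq (hy0 p hp)] at h
        have h2 : Z i p = Z i1 p := by
          have := h
          simp only [hy] at this
          linear_combination this
        exact hi' (hi p hp h2)) p hp p0 hp0
    rw [hc']
    simp only
    rw [← h1, mul_div_cancel₀ _ (hy0 p hp)]
  have hn0 : (n : ℂ) ≠ 0 := by
    have : n ≠ 0 := by omega
    exact_mod_cast this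
  refine ⟨fun i => c' i - (∑ j, c' j) / n, y, ?_, hyc, hy0, ?_⟩
  · intro i j hij
    have h1 : c' i = c' j := by
      simp only at hij
      linear_combination hij
    have h2 : Z i p0 = Z j p0 := by
      have hi := hconst i p0 hp0
      have hj := hconst j p0 hp0
      rw [h1] at hi
      linear_combination hi - hj
    exact hi p0 hp0 h2
  · intro i p hp
    have h1 := hs p hp
    have h2 : ∑ j, Z j p = n * Z i0 p + y p * ∑ j, c' j := by
      have : ∀ j, Z j p = Z i0 p + y p * c' j := fun j => by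
        have := hconst j p hp
        linear_combination this
      rw [Finset.sum_congr rfl fun j _ => this j, Finset.sum_add_distrib, ← Finset.mul_sum]
      simp
    rw [h1] at h2
    have h3 := hconst i p hp
    have h4 : Z i0 p = - (y p * ∑ j, c' j) / n := by
      rw [eq_div_iff hn0]
      linear_combination -h2
    have h5 : Z i p = Z i0 p + y p * c' i := by linear_combination h3
    rw [h5, h4]
    ring

/-- The `n` root functions on `Ghat k`. -/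
theorem exists_roots_Ghat (hk : 4 < k) (hn : 3 ≤ n) (f : SG k → SG n)
    (S : Sys k (ℂ × ℂ)) (hS : S.F = rootQ f) (hs : ∀ i, i + 1 < k → S.s i = S.s 0) :
    ∃ Z : Fin n → (Fin (k - 1) → ℂ) × ℂ → ℂ, (∀ i, ContinuousOn (Z i) (Ghat k)) ∧
      (∀ p ∈ Ghat k, Function.Injective fun i => Z i p) ∧
      ∀ i, ∀ p (hp : p ∈ Ghat k), (pol n (f ⟨el k p, el_mem (by omega) p hp⟩ :
        Fin (n - 1) → ℂ)).eval (Z i p) = 0 := by
  have hk2 : 2 ≤ k := by omega
  have hn2 : 2 ≤ n := by omega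
  have hN : ((k * (k - 1) : ℕ) : ℂ) ≠ 0 := Nat.cast_ne_zero.2 (N_ne hk2)
  have hbase : base k ∈ Conf k := Gen_subset_Conf k (Ord_subset_Gen k (base_mem_Ord k))
  obtain ⟨l₀, hl⟩ : ∃ l₀, Complex.exp l₀ = Dsc (base k) :=
    ⟨Complex.log _, Complex.exp_log ((Dsc_ne_zero _).2 hbase)⟩
  obtain ⟨X, hX1, hX2, hX3, -, ⟨hX5, hX6⟩, -⟩ := S.gp hk2 (S.s 0) hs l₀ hl
  replace hX2 : ∀ φ, ∀ p ∈ Yset k, X φ p ∈ rootQ f p.1 := fun φ p hp => by
    rw [← hS]
    exact hX2 φ p hp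
  replace hX5 : ∀ p ∈ Yset k, ∀ w ∈ rootQ f p.1, ∃ φ, X φ p = w := fun p hp w hw => by
    rw [← hS] at hw
    exact hX5 p hp w hw
  -- the first components
  have hu : ∀ φ, ∃ U : (Fin (k - 1) → ℂ) × ℂ → ℂ, ContinuousOn U (Ghat k) ∧
      ∀ p ∈ Yset k, ∑ i, p.1 i = 0 → U (cf p.1, p.2) = (X φ p).1 * al k p.2 := by
    intro φ
    refine descend hk2 (fun p => (X φ p).1 * al k p.2) ?_ ?_
    · exact (hX1 φ).fst.mul
        (((differentiable_al k).continuous.comp continuous_snd).continuousOn)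
    · intro p hp π
      have h := hX3 φ p hp π
      show (X φ (p.1 ∘ π, p.2)).1 * al k p.2 = _
      rw [h]
  choose U hU1 hU2 using hu
  -- the second components
  have hz : ∀ φ, ∃ Z : (Fin (k - 1) → ℂ) × ℂ → ℂ, ContinuousOn Z (Ghat k) ∧
      ∀ p ∈ Yset k, ∑ i, p.1 i = 0 → Z (cf p.1, p.2) = (X φ p).2 := by
    intro φ
    refine descend hk2 (fun p => (X φ p).2) (hX1 φ).snd ?_
    intro p hp π
    have h := hX3 φ p hp π
    show (X φ (p.1 ∘ π, p.2)).2 = _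
    rw [h]
  choose Z hZ1 hZ2 using hz
  have hUpow : ∀ φ, ∀ p ∈ Ghat k, U φ p ^ (k * (k - 1)) = 1 := by
    intro φ p hp
    obtain ⟨q, hq1, hq2, hq3⟩ := Ghat_lift hk2 p hp
    have h1 := hU2 φ (q, p.2) hq1 hq2
    simp only [hq3] at h1
    have h2 : (X φ (q, p.2)).1 ^ (k * (k - 1)) = Dsc q := (hX2 φ (q, p.2) hq1).1
    have h3 : U φ p = (X φ (q, p.2)).1 * al k p.2 := h1
    rw [h3, mul_pow, h2, al_pow hk2, ← hq1.2, ← Complex.exp_add, add_neg_cancel, Complex.exp_zero]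
  have hconn := Ghat_preconnected hk2
  have hUc : ∀ φ, ∀ p ∈ Ghat k, ∀ p' ∈ Ghat k, U φ p = U φ p' := by
    intro φ p hp p' hp'
    refine eq_of_finite_range hconn (hU1 φ)
      (V := ((nthRootsFinset (k * (k - 1)) (1 : ℂ) : Finset ℂ) : Set ℂ)) (Finset.finite_toSet _) ?_ hp hp'
    intro x hx
    rw [Finset.mem_coe, mem_nthRootsFinset (Nat.pos_of_ne_zero (N_ne hk2))]
    exact hUpow φ x hx
  -- a centred base point
  have hp0 : ∃ p₀ : (Fin (k - 1) → ℂ) × ℂ, p₀ ∈ Ghat k := ⟨(cf (base k), l₀), Ghat_of_Y hk2 (base k, l₀) ⟨hbase, hl⟩⟩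
  obtain ⟨p₀, hp₀⟩ := hp0
  obtain ⟨q₀, hq1, hq2, hq3⟩ := Ghat_lift hk2 p₀ hp₀
  have hel0 : sc (al k p₀.2)⁻¹ q₀ = el k p₀ := by
    rw [sc_eq_el hk2, hq3]
  obtain ⟨x₀, hx1, -, -, hx4⟩ := exists_enum n hn2 (f ⟨el k p₀, el_mem hk2 p₀ hp₀⟩ : Fin (n - 1) → ℂ)
    (SG_subset_G0 n (f ⟨el k p₀, el_mem hk2 p₀ hp₀⟩).2)
  have hcol : ∀ p : (Fin k → ℂ) × ℂ, p ∈ Yset k → (al k p.2)⁻¹ ∈ colQ k p.1 := by
    intro p hp
    show (al k p.2)⁻¹ ^ (k * (k - 1)) = Dsc p.1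
    rw [inv_pow, al_pow hk2, ← hp.2, ← Complex.exp_neg, neg_neg]
  have hφ : ∀ i, ∃ φ, X φ (q₀, p₀.2) = ((al k p₀.2)⁻¹, x₀ i) := by
    intro i
    refine hX5 (q₀, p₀.2) hq1 _ ⟨hcol _ hq1, ?_⟩
    have h1 : sc (al k p₀.2)⁻¹ q₀ ∈ SG k := by rw [hel0]; exact el_mem hk2 p₀ hp₀
    refine ⟨h1, ?_⟩
    have h2 : (⟨sc (al k p₀.2)⁻¹ q₀, h1⟩ : SG k) = ⟨el k p₀, el_mem hk2 p₀ hp₀⟩ := Subtype.ext hel0
    simp only [h2]
    exact (hx4 _).2 ⟨i, rfl⟩
  choose φ hφ using hφ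
  have hφi : Function.Injective φ := by
    intro i j hij
    have h1 := hφ i
    rw [hij, hφ j, Prod.mk.injEq] at h1
    exact (hx1 h1.2).symm
  have hU1' : ∀ i, ∀ p ∈ Ghat k, U (φ i) p = 1 := by
    intro i p hp
    rw [hUc (φ i) p hp p₀ hp₀]
    have h1 := hU2 (φ i) (q₀, p₀.2) hq1 hq2
    simp only [hq3, hφ i] at h1
    have h3 : U (φ i) p₀ = (al k p₀.2)⁻¹ * al k p₀.2 := h1
    rw [h3, inv_mul_cancel₀ (al_ne k _)]
  -- over `Ghat k`
  have hfst : ∀ i, ∀ q : Fin k → ℂ, ∀ l : ℂ, (q, l) ∈ Yset k → ∑ j, q j = 0 →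
      (X (φ i) (q, l)).1 = (al k l)⁻¹ := by
    intro i q l h1 h2
    have h3 := hU2 (φ i) (q, l) h1 h2
    rw [hU1' i _ (Ghat_of_Y hk2 _ h1)] at h3
    exact eq_inv_of_mul_eq_one_left h3.symm
  refine ⟨fun i => Z (φ i), fun i => hZ1 _, ?_, ?_⟩
  · intro p hp i j hij
    obtain ⟨q, h1, h2, h3⟩ := Ghat_lift hk2 p hp
    have h4 := hZ2 (φ i) (q, p.2) h1 h2
    have h5 := hZ2 (φ j) (q, p.2) h1 h2
    simp only [h3] at h4 h5
    have h6 : (X (φ i) (q, p.2)).2 = (X (φ j) (q, p.2)).2 := by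
      rw [← h4, ← h5]
      exact hij
    have h7 : (X (φ i) (q, p.2)).1 = (X (φ j) (q, p.2)).1 := by
      rw [hfst i q p.2 h1 h2, hfst j q p.2 h1 h2]
    exact hφi (hX6 _ h1 _ _ (Prod.ext h7 h6))
  · intro i p hp
    obtain ⟨q, h1, h2, h3⟩ := Ghat_lift hk2 p hp
    have h4 := hZ2 (φ i) (q, p.2) h1 h2
    simp only [h3] at h4
    have h4' : Z (φ i) p = (X (φ i) (q, p.2)).2 := h4
    obtain ⟨-, h5, h6⟩ := hX2 (φ i) (q, p.2) h1
    have h7 := hfst i q p.2 h1 h2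
    have h8 : (⟨sc (X (φ i) (q, p.2)).1 q, h5⟩ : SG k) = ⟨el k p, el_mem hk2 p hp⟩ := by
      apply Subtype.ext
      show sc (X (φ i) (q, p.2)).1 q = el k p
      rw [h7, sc_eq_el hk2, h3]
    simp only at h6
    rw [h8, ← h4'] at h6
    exact h6

/-- If all `s_i` of the Q2 system of `f` are equal then `f` is constant. -/
theorem const_of_eq (hk : 4 < k) (hn : 3 ≤ n) (f : SG k → SG n) (hf : HoloSG f)
    (S : Sys k (ℂ × ℂ)) (hS : S.F = rootQ f) (hs : ∀ i, i + 1 < k → S.s i = S.s 0) :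
    ∀ z z' : SG k, f z = f z' := by
  have hk2 : 2 ≤ k := by omega
  have hn2 : 2 ≤ n := by omega
  obtain ⟨Z, hZ1, hZ2, hZ3⟩ := exists_roots_Ghat hk hn f S hS hs
  have hh : ∀ i, HolG k (Z i) := fun i => holG_root hk2 hn2 f hf (Z i) (hZ1 i) (hZ3 i)
  have hprod : ∀ p (hp : p ∈ Ghat k), ∑ i, Z i p = 0 ∧
      pol n (f ⟨el k p, el_mem hk2 p hp⟩ : Fin (n - 1) → ℂ) = ∏ i, (X - C (Z i p)) := by
    intro p hp
    have h := of_enum n hn2 (f ⟨el k p, el_mem hk2 p hp⟩ : Fin (n - 1) → ℂ) (Fintype.card_fin n)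
      (fun i => Z i p) (hZ2 p hp) (fun i => hZ3 i p hp)
    exact ⟨h.1, h.2.1⟩
  intro z z'
  have hz := mem_Ghat_zero z.2
  have hz' := mem_Ghat_zero z'.2
  obtain ⟨c, y, hc1, hy1, hy2, hy3⟩ := proportional hk hn Z hZ1 hh hZ2
    (fun p hp => (hprod p hp).1) ⟨_, hz⟩
  -- the discriminant
  have hdisc : ∀ p ∈ Ghat k, y p ^ (n * (n - 1)) * Dsc c = 1 := by
    intro p hp
    have h1 : (pol n (f ⟨el k p, el_mem hk2 p hp⟩ : Fin (n - 1) → ℂ)).discr = 1 :=
      (f ⟨el k p, el_mem hk2 p hp⟩).2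
    have h2 : pol n (f ⟨el k p, el_mem hk2 p hp⟩ : Fin (n - 1) → ℂ) = pol n (cf (fun i => Z i p)) := by
      rw [(hprod p hp).2, pol_cf hn2]
      unfold cpoly mean
      rw [(hprod p hp).1, zero_div]
      simp only [sub_zero]
    rw [h2, discr_cf hn2] at h1
    have h3 : (fun i => Z i p) = fun i => y p * c i := by
      funext i
      exact hy3 i p hp
    rw [h3, Dsc_smul] at h1
    exact h1
  have hD : Dsc c ≠ 0 := (Dsc_ne_zero c).2 hc1
  have hyc : y (z, 0) = y (z', 0) := by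
    refine eq_of_finite_range (Ghat_preconnected hk2) hy1
      (V := ((nthRootsFinset (n * (n - 1)) ((Dsc c)⁻¹ : ℂ) : Finset ℂ) : Set ℂ)) (Finset.finite_toSet _) ?_
      hz hz'
    intro x hx
    rw [Finset.mem_coe, mem_nthRootsFinset (Nat.pos_of_ne_zero (N_ne hn2))]
    exact eq_inv_of_mul_eq_one_left (hdisc x hx)
  have hpol : pol n (f ⟨el k (z, 0), el_mem hk2 _ hz⟩ : Fin (n - 1) → ℂ) =
      pol n (f ⟨el k (z', 0), el_mem hk2 _ hz'⟩ : Fin (n - 1) → ℂ) := by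
    rw [(hprod _ hz).2, (hprod _ hz').2]
    refine Finset.prod_congr rfl fun i _ => ?_
    rw [hy3 i _ hz, hy3 i _ hz', hyc]
  have h1 : (⟨el k ((z : Fin (k - 1) → ℂ), 0), el_mem hk2 _ hz⟩ : SG k) = z := Subtype.ext (el_zero _)
  have h2 : (⟨el k ((z' : Fin (k - 1) → ℂ), 0), el_mem hk2 _ hz'⟩ : SG k) = z' := Subtype.ext (el_zero _)
  rw [h1, h2] at hpol
  exact Subtype.ext (pol_inj n _ _ hpol)

end Pool.Agent.Helper50.LN6
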