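import Pool.Agent.Helper83.LN6.CDefs
import Pool.Agent.Helper2.LN.Rigid
import Pool.Agent.Helper2.LN.LogLemma
import Pool.Agent.Helper2.LN.GhatConn
import Pool.Agent.Helper93.L2.RootN
import Pool.Agent.Helper93.L2.RootSecH
import Pool.Agent.Helper93.LN.FHom

/-!
# LN6 (MP_730da0_ag), Q1: the coloured system of a holomorphic map `f : G_k^0 → G_n^0`

One colour `0`.  `q1Sys`: the coloured system.  `q1_card`: all `n` points have the same colour.
`q1_end`: if all `s_i` are equal then `f` is splittable.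
-/

namespace Pool.Agent.Helper50.LN6

open Polynomial Pool.Agent.Helper2.LN Pool.Agent.Helper93.LN Pool.Agent.Helper93.L2
open Pool.Agent.Helper83.LN6 Pool.Agent.Helper96.LN3

variable {k n : ℕ}

/-- The system `{0} × S`. -/
def zeroProd (S : Sys k ℂ) : Sys k (ℂ × ℂ) where
  F q := {w | w.1 = 0 ∧ w.2 ∈ S.F q}
  perm q π := by rw [S.perm]
  lift A _ _ _ γ hγ a₀ w₀ hw := by
    obtain ⟨s, h1, h2⟩ := S.lift A γ hγ a₀ w₀.2 hw.2
    exact ⟨⟨fun a => ((0 : ℂ), s a), continuous_const.prodMk s.continuous⟩, Prod.ext hw.1.symm h1,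
      fun a => ⟨rfl, h2 a⟩⟩
  uniq A _ _ γ hγ s s' hs hs' h := by
    obtain ⟨a₀, ha⟩ := h
    have h1 := S.uniq A γ hγ ⟨fun a => (s a).2, continuous_snd.comp s.continuous⟩
      ⟨fun a => (s' a).2, continuous_snd.comp s'.continuous⟩ (fun a => (hs a).2) (fun a => (hs' a).2)
      ⟨a₀, congrArg Prod.snd ha⟩
    refine ContinuousMap.ext fun a => Prod.ext ?_ (DFunLike.congr_fun h1 a)
    rw [(hs a).1, (hs' a).1]

/-- The system with one point `0`. -/
def zeroSys (k : ℕ) : Sys k ℂ where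
  F _ := {0}
  perm _ _ := rfl
  lift A _ _ _ γ _ a₀ w₀ hw := ⟨⟨fun _ => 0, continuous_const⟩, hw.symm, fun _ => rfl⟩
  uniq A _ _ γ _ s s' hs hs' _ := by
    refine ContinuousMap.ext fun a => ?_
    rw [show s a = 0 from hs a, show s' a = 0 from hs' a]

instance : Subsingleton ((zeroSys k).F (base k)) :=
  inferInstanceAs (Subsingleton ({0} : Set ℂ))

/-- The coloured system of `f`. -/
noncomputable def q1Sys (hk : 2 ≤ k) (hn : 3 ≤ n) (f : C(G0 k, G0 n)) (hf : Holo f) : CSys k where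
  S := zeroProd (rootSys hk (by omega) f)
  C := zeroSys k
  col _ _ _ hw := hw.1
  fin := by
    have h1 : (rootF f (base k)).Finite := (rootF_card hk (by omega) f (base k) (base_mem k)).2
    have h2 : ((zeroProd (rootSys hk (by omega) f)).F (base k)) ⊆ (fun x : ℂ => ((0 : ℂ), x)) '' rootF f (base k) := by
      rintro ⟨a, b⟩ ⟨ha, hb⟩
      exact ⟨b, hb, Prod.ext (Eq.symm ha) rfl⟩
    exact ((h1.image _).subset h2).to_subtype
  hol D hD hDC σ hσ hm := rootSys_hol hk (by omega) f hf D hD hDC (fun q => (σ q).2)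
    (continuous_snd.comp_continuousOn hσ) (fun q hq => (hm q hq).2)
  rig q hq := by
    obtain ⟨y, h1, h2, h3, h4⟩ := rigid hk hn f hf q hq
    exact ⟨y, h1, h2, h3, fun X hX hm s => h4 (fun s => (X s).2) (continuous_snd.comp hX)
      (fun s => (hm s).2) s⟩
  eqc _ _ := Equiv.ext fun _ => Subsingleton.elim _ _
  blk _ _ := ⟨0, Subsingleton.elim _ _⟩

theorem q1_same (hk : 2 ≤ k) (hn : 3 ≤ n) (f : C(G0 k, G0 n)) (hf : Holo f) (a b : (q1Sys hk hn f hf).B) :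
    (q1Sys hk hn f hf).Same a b :=
  (show (a : ℂ × ℂ).1 = 0 from a.2.1).trans (show (b : ℂ × ℂ).1 = 0 from b.2.1).symm

theorem q1_card (hk : 2 ≤ k) (hn : 3 ≤ n) (f : C(G0 k, G0 n)) (hf : Holo f) :
    Nat.card (q1Sys hk hn f hf).B = n := by
  refine Eq.trans ?_ (rootF_card hk (by omega) f (base k) (base_mem k)).1
  refine Nat.card_congr ⟨fun a => ⟨(a : ℂ × ℂ).2, a.2.2⟩, fun b => ⟨((0 : ℂ), (b : ℂ)), rfl, b.2⟩, ?_, ?_⟩
  · intro a
    exact Subtype.ext (Prod.ext (show (0 : ℂ) = (a : ℂ × ℂ).1 from (show (a : ℂ × ℂ).1 = 0 from a.2.1).symm) rfl)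
  · intro b
    rfl

/-- All `s_i` equal implies `f` splittable. -/
theorem q1_end (hk : 4 < k) (hn : 3 ≤ n) (f : C(G0 k, G0 n)) (hf : Holo f)
    (hs : ∀ i, i + 1 < k → (q1Sys (by omega : 2 ≤ k) hn f hf).S.s i = (q1Sys (by omega : 2 ≤ k) hn f hf).S.s 0) :
    Splittable f := by
  have hk2 : 2 ≤ k := by omega
  have hn2 : 2 ≤ n := by omega
  obtain ⟨F, hF, hfF⟩ := hf
  have hf : Holo f := ⟨F, hF, hfF⟩
  have hmap : ∀ i, i + 1 < k → ∀ φ : (rootSys hk2 hn2 f).F (base k),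
      ((rootSys hk2 hn2 f).s i φ : ℂ) =
        ((q1Sys hk2 hn f hf).S.s i ⟨((0 : ℂ), (φ : ℂ)), rfl, φ.2⟩ : ℂ × ℂ).2 := by
    intro i hi φ
    exact (s_map (q1Sys hk2 hn f hf).S (rootSys hk2 hn2 f) Prod.snd continuous_snd
      (fun q _ w hw => hw.2) i hi ⟨((0 : ℂ), (φ : ℂ)), rfl, φ.2⟩).symm
  have hs' : ∀ i, i + 1 < k → (rootSys hk2 hn2 f).s i = (rootSys hk2 hn2 f).s 0 := by
    intro i hi
    refine Equiv.ext fun φ => Subtype.ext ?_
    rw [hmap i hi φ, hmap 0 (by omega) φ, hs i hi]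
  obtain ⟨R⟩ := exists_rootSec_of_eq hk hn f F hfF (rootSys hk2 hn2 f) rfl hs'
  have hne : (Ghat k).Nonempty :=
    ⟨_, Ghat_of_Y hk2 (base k, Complex.log (Dsc (base k)))
      ⟨base_mem k, Complex.exp_log ((Dsc_ne_zero _).2 (base_mem k))⟩⟩
  exact splittable_of_rootSec hk2 hn hne (Ghat_preconnected hk2) (logProp hk) f hF hfF R

end Pool.Agent.Helper50.LN6
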