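import Pool.Agent.Helper2.LN6.Main
import Pool.Agent.Helper50.LN6.CQ1
import Pool.Agent.Helper50.LN6.CEnd

/-!
# LN6 (MP_730da0_ag): `SQ1` and `SEnd2` of the assembly interface
-/

namespace Pool.Agent.Helper50.LN6

open Polynomial Pool.Agent.Helper2.LN Pool.Agent.Helper2.LN6
open Pool.Agent.Helper83.LN6 Pool.Agent.Helper96.LN3

variable {k n : ℕ}

theorem q1_s (hk : 4 < k) (hn : 3 ≤ n) (f : C(G0 k, G0 n)) (hf : Holo f)
    (hs : ∀ i, i + 1 < k → (q1Sys (by omega : 2 ≤ k) hn f hf).S.s i = (q1Sys (by omega : 2 ≤ k) hn f hf).S.s 0)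
    (i : ℕ) (hi : i + 1 < k) :
    (rootSys (by omega : 2 ≤ k) (by omega : 2 ≤ n) f).s i =
      (rootSys (by omega : 2 ≤ k) (by omega : 2 ≤ n) f).s 0 := by
  have hk2 : 2 ≤ k := by omega
  have hn2 : 2 ≤ n := by omega
  have hmap : ∀ i, i + 1 < k → ∀ φ : (rootSys hk2 hn2 f).F (base k),
      ((rootSys hk2 hn2 f).s i φ : ℂ) =
        ((q1Sys hk2 hn f hf).S.s i ⟨((0 : ℂ), (φ : ℂ)), rfl, φ.2⟩ : ℂ × ℂ).2 := by
    intro i hi φ
    exact (s_map (q1Sys hk2 hn f hf).S (rootSys hk2 hn2 f) Prod.snd continuous_snd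
      (fun q _ w hw => hw.2) i hi ⟨((0 : ℂ), (φ : ℂ)), rfl, φ.2⟩).symm
  refine Equiv.ext fun φ => Subtype.ext ?_
  rw [hmap i hi φ, hmap 0 (by omega) φ, hs i hi]

theorem sq1 (hk : 4 < k) (hn : 3 ≤ n) : SQ1 k n := by
  intro f hf
  refine ⟨q1Sys (by omega) hn f hf, rootSys (by omega) (by omega) f, rfl, fun a => ?_,
    fun hs i hi => q1_s hk hn f hf hs i hi⟩
  exact (Nat.card_congr (Equiv.subtypeUnivEquiv fun b => q1_same _ hn f hf a b)).trans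
    (q1_card (by omega : 2 ≤ k) hn f hf)

theorem send2 (hk : 4 < k) (hn : 3 ≤ n) : SEnd2 k n := fun f hf S hS hs => const_of_eq hk hn f hf S hS hs

end Pool.Agent.Helper50.LN6
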