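import Pool.Agent.Helper50.LN6.Adapt
import Pool.Agent.Helper2.LN.LogCross

/-!
# LN6 (MP_730da0_ag), Q2: the coloured system of a holomorphic map `f : SG_k → SG_n`

Colour: a root `t` of order `N = k(k-1)` of the discriminant; position: a root of the polynomial
`f (cf (t⁻¹ q))`.  `rig`: over `e^s q` the colour is `e^s t`, so the polynomial does not change.
-/

namespace Pool.Agent.Helper50.LN6

open Polynomial Pool.Agent.Helper2.LN Pool.Agent.Helper2.LN6
open Pool.Agent.Helper83.LN6 Pool.Agent.Helper96.LN3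

variable {k n : ℕ}

/-! ## colours -/

private theorem finite_nthRoots {N : ℕ} (hN : N ≠ 0) (d : ℂ) : {x : ℂ | x ^ N = d}.Finite := by
  refine Set.Finite.subset (Finset.finite_toSet (nthRootsFinset N d)) ?_
  intro x hx
  rw [Finset.mem_coe, mem_nthRootsFinset (Nat.pos_of_ne_zero hN)]
  exact hx

private theorem pow_uniq {N : ℕ} (hN : N ≠ 0) {A : Type} [TopologicalSpace A] [PreconnectedSpace A]
    (d : A → ℂ) (hd : ∀ a, d a ≠ 0) (s s' : C(A, ℂ)) (hs : ∀ a, s a ^ N = d a)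
    (hs' : ∀ a, s' a ^ N = d a) (h : ∃ a, s a = s' a) : s = s' := by
  obtain ⟨a₀, ha⟩ := h
  have hne : ∀ a, s' a ≠ 0 := by
    intro a h0
    have := hs' a
    rw [h0, zero_pow hN] at this
    exact hd a this.symm
  refine ContinuousMap.ext fun a => ?_
  have h1 := Pool.Agent.Helper93.LN.eq_of_finite_range (S := (Set.univ : Set A)) isPreconnected_univ
    (u := fun a => s a / s' a) (s.continuous.div s'.continuous hne).continuousOn
    (finite_nthRoots hN 1) (fun a _ => by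
      show (s a / s' a) ^ N = 1
      rw [div_pow, hs, hs', div_self (hd a)]) (Set.mem_univ a) (Set.mem_univ a₀)
  rw [ha, div_self (hne a₀), div_eq_one_iff_eq (hne a)] at h1
  exact h1

/-- The system of the colours. -/
noncomputable def colSys (hk : 2 ≤ k) : Sys k ℂ where
  F := colQ k
  perm := colQ_perm
  lift A _ _ _ γ hγ a₀ w₀ hw := by
    let d : C(A, ℂ) := ⟨fun a => Dsc (γ a), (differentiable_Dsc k).continuous.comp γ.continuous⟩
    have hd : ∀ a, d a ≠ 0 := fun a => (Dsc_ne_zero (γ a)).2 (hγ a)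
    obtain ⟨l, -, hl⟩ := exp_lift A d hd a₀ (Complex.log (d a₀)) (Complex.exp_log (hd a₀))
    refine ⟨⟨fun a => w₀ * al k (l a₀) * (al k (l a))⁻¹, ?_⟩, ?_, fun a => ?_⟩
    · exact continuous_const.mul (((differentiable_al k).continuous.comp l.continuous).inv₀
        fun a => al_ne k _)
    · exact mul_inv_cancel_right₀ (al_ne k _) _
    · show (w₀ * al k (l a₀) * (al k (l a))⁻¹) ^ (k * (k - 1)) = Dsc (γ a)
      have h1 : w₀ ^ (k * (k - 1)) = Complex.exp (l a₀) := by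
        rw [hl a₀]
        exact hw
      rw [mul_pow, mul_pow, inv_pow, al_pow hk, al_pow hk, h1, ← Complex.exp_add, add_neg_cancel,
        Complex.exp_zero, one_mul, ← Complex.exp_neg, neg_neg]
      exact hl a
  uniq A _ _ γ hγ s s' hs hs' h := pow_uniq (N_ne hk) (fun a => Dsc (γ a))
    (fun a => (Dsc_ne_zero (γ a)).2 (hγ a)) s s' hs hs' h

/-- `exp(2πi/N)` -/
private noncomputable def zt (k : ℕ) : ℂ := Complex.exp (2 * Real.pi * Complex.I / ((k * (k - 1) : ℕ) : ℂ))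

private theorem exists_al (hk : 2 ≤ k) {t : ℂ} (ht : t ∈ colQ k (base k)) :
    ∃ l : ℂ, Complex.exp l = Dsc (base k) ∧ (al k l)⁻¹ = t := by
  have h0 : t ≠ 0 := colQ_ne_zero hk (base_mem k) ht
  have hN : ((k * (k - 1) : ℕ) : ℂ) ≠ 0 := Nat.cast_ne_zero.2 (N_ne hk)
  refine ⟨((k * (k - 1) : ℕ) : ℂ) * Complex.log t, ?_, ?_⟩
  · rw [Complex.exp_nat_mul, Complex.exp_log h0]
    exact ht
  · unfold al
    rw [← Complex.exp_neg, neg_neg, mul_div_cancel_left₀ _ hN, Complex.exp_log h0]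

theorem col_s (hk : 2 ≤ k) (i : ℕ) (hi : i + 1 < k) (t : (colSys hk).F (base k)) :
    ((colSys hk).s i t : ℂ) = zt k * (t : ℂ) := by
  obtain ⟨l, hl, hlt⟩ := exists_al hk t.2
  have h1 := s_map (logSys k) (colSys hk) (fun l => (al k l)⁻¹)
    ((differentiable_al k).continuous.inv₀ fun l => al_ne k l)
    (fun q _ w hw => by
      show (al k w)⁻¹ ^ (k * (k - 1)) = Dsc q
      have hw' : Complex.exp w = Dsc q := hw
      rw [inv_pow, al_pow hk, ← Complex.exp_neg, neg_neg, hw']) i hi ⟨l, hl⟩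
  rw [log_s k i hi] at h1
  have h2 : (⟨(al k ((⟨l, hl⟩ : (logSys k).F (base k)) : ℂ))⁻¹, by
      show (al k l)⁻¹ ^ (k * (k - 1)) = Dsc (base k)
      rw [inv_pow, al_pow hk, ← Complex.exp_neg, neg_neg, hl]⟩ : (colSys hk).F (base k)) = t :=
    Subtype.ext hlt
  rw [h2] at h1
  rw [← h1, ← hlt]
  unfold al zt
  simp only
  rw [← Complex.exp_neg, ← Complex.exp_neg, ← Complex.exp_add]
  congr 1
  ring

theorem col_pow (hk : 2 ≤ k) (h1k : 0 + 1 < k) (j : ℕ) (t : (colSys hk).F (base k)) :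
    (((colSys hk).s 0 ^ j) t : ℂ) = zt k ^ j * (t : ℂ) := by
  induction j with
  | zero => simp
  | succ j ih =>
    rw [pow_succ', Equiv.Perm.mul_apply, col_s hk 0 h1k, ih]
    ring

theorem col_eqc (hk : 2 ≤ k) (i : ℕ) (hi : i + 1 < k) : (colSys hk).s i = (colSys hk).s 0 := by
  refine Equiv.ext fun t => Subtype.ext ?_
  rw [col_s hk i hi, col_s hk 0 (by omega)]

theorem col_blk (hk : 2 ≤ k) (x y : (colSys hk).F (base k)) : ∃ j : ℕ, ((colSys hk).s 0 ^ j) x = y := by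
  have hx : (x : ℂ) ≠ 0 := colQ_ne_zero hk (base_mem k) x.2
  have h1 : ((y : ℂ) / (x : ℂ)) ^ (k * (k - 1)) = 1 := by
    rw [div_pow, show (x : ℂ) ^ (k * (k - 1)) = Dsc (base k) from x.2,
      show (y : ℂ) ^ (k * (k - 1)) = Dsc (base k) from y.2, div_self ((Dsc_ne_zero _).2 (base_mem k))]
  have : NeZero (k * (k - 1)) := ⟨N_ne hk⟩
  obtain ⟨j, -, hj⟩ := (Complex.isPrimitiveRoot_exp (k * (k - 1)) (N_ne hk)).eq_pow_of_pow_eq_one h1
  refine ⟨j, Subtype.ext ?_⟩
  rw [col_pow hk (by omega)]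
  show Complex.exp (2 * Real.pi * Complex.I / ((k * (k - 1) : ℕ) : ℂ)) ^ j * (x : ℂ) = y
  rw [hj, div_mul_cancel₀ _ hx]

/-! ## the system -/

private theorem continuous_sc {A : Type} [TopologicalSpace A] (γ : C(A, Fin k → ℂ)) (t : C(A, ℂ))
    (ht : ∀ a, t a ≠ 0) : Continuous fun a => sc (t a) (γ a) := by
  unfold sc
  refine (differentiable_cf k).continuous.comp (continuous_pi fun i => ?_)
  exact (t.continuous.inv₀ ht).mul ((continuous_apply i).comp γ.continuous)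

private theorem exists_g (hk : 2 ≤ k) (f : SG k → SG n) (hf : Continuous f) (A : Type) [TopologicalSpace A]
    (γ : C(A, Fin k → ℂ)) (hγ : ∀ a, γ a ∈ Conf k) (t : C(A, ℂ)) (ht : ∀ a, t a ∈ colQ k (γ a)) :
    ∃ g : C(A, Fin (n - 1) → ℂ), (∀ a, g a ∈ G0 n) ∧
      ∀ a x, ((t a, x) ∈ rootQ f (γ a) ↔ (pol n (g a)).eval x = 0) := by
  have h0 : ∀ a, t a ≠ 0 := fun a => colQ_ne_zero hk (hγ a) (ht a)
  refine ⟨⟨fun a => (f ⟨sc (t a) (γ a), sc_mem hk (hγ a) (ht a)⟩ : Fin (n - 1) → ℂ), ?_⟩, fun a => ?_,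
    fun a x => ?_⟩
  · exact continuous_subtype_val.comp (hf.comp (Continuous.subtype_mk (continuous_sc γ t h0) _))
  · exact SG_subset_G0 n (f _).2
  · constructor
    · rintro ⟨-, h, h1⟩
      exact h1
    · intro h
      exact ⟨ht a, sc_mem hk (hγ a) (ht a), h⟩

/-- The system of the pairs (colour, root). -/
noncomputable def rootQSys (hk : 2 ≤ k) (hn : 2 ≤ n) (f : SG k → SG n) (hf : HoloSG f) : Sys k (ℂ × ℂ) where
  F := rootQ f
  perm := rootQ_perm f
  lift A _ _ _ γ hγ a₀ w₀ hw := by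
    obtain ⟨t, ht0, ht⟩ := (colSys hk).lift A γ hγ a₀ w₀.1 hw.1
    obtain ⟨g, hg1, hg2⟩ := exists_g hk f hf.continuous A γ hγ t ht
    have h1 : (pol n (g a₀)).eval w₀.2 = 0 := by
      rw [← hg2, ht0]
      exact hw
    obtain ⟨s, hs1, hs2⟩ := root_lift hn A g hg1 a₀ w₀.2 h1
    exact ⟨⟨fun a => (t a, s a), t.continuous.prodMk s.continuous⟩, Prod.ext ht0 hs1,
      fun a => (hg2 a (s a)).2 (hs2 a)⟩
  uniq A _ _ γ hγ s s' hs hs' h := by
    obtain ⟨a₀, ha⟩ := h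
    have h1 := (colSys hk).uniq A γ hγ ⟨fun a => (s a).1, continuous_fst.comp s.continuous⟩
      ⟨fun a => (s' a).1, continuous_fst.comp s'.continuous⟩ (fun a => (hs a).1) (fun a => (hs' a).1)
      ⟨a₀, congrArg Prod.fst ha⟩
    have h1' : ∀ a, (s a).1 = (s' a).1 := fun a => DFunLike.congr_fun h1 a
    obtain ⟨g, hg1, hg2⟩ := exists_g hk f hf.continuous A γ hγ
      ⟨fun a => (s a).1, continuous_fst.comp s.continuous⟩ (fun a => (hs a).1)
    have h2 := root_uniq hn A g hg1 ⟨fun a => (s a).2, continuous_snd.comp s.continuous⟩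
      ⟨fun a => (s' a).2, continuous_snd.comp s'.continuous⟩ (fun a => (hg2 a _).1 (hs a))
      (fun a => (hg2 a _).1 (by
        show ((s a).1, (s' a).2) ∈ rootQ f (γ a)
        rw [h1' a]
        exact hs' a)) ⟨a₀, congrArg Prod.snd ha⟩
    exact ContinuousMap.ext fun a => Prod.ext (h1' a) (DFunLike.congr_fun h2 a)

/-! ## holomorphy -/

private theorem mul_cont {E : Type} [NormedAddCommGroup E] [NormedSpace ℂ E] (u c : E → ℂ) (x₀ : E)
    (u' : E →L[ℂ] ℂ) (hu : HasFDerivAt u u' x₀) (h0 : u x₀ = 0) (hc : ContinuousAt c x₀) :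
    HasFDerivAt (fun x => u x * c x) (c x₀ • u') x₀ := by
  rw [hasFDerivAt_iff_isLittleO]
  have h1 : (fun x => (u x - u x₀ - u' (x - x₀)) * c x) =o[nhds x₀] fun x => x - x₀ := by
    have h3 : (fun x => (u x - u x₀ - u' (x - x₀)) * c x) =o[nhds x₀] fun x => ‖x - x₀‖ * (1 : ℝ) := by
      have h4 := hu.isLittleO.norm_right
      exact h4.mul_isBigO (hc.isBigO_one ℝ)
    simpa using h3
  have h5 : (fun x => u' (x - x₀) * (c x - c x₀)) =o[nhds x₀] fun x => x - x₀ := by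
    have h6 : (fun x => c x - c x₀) =o[nhds x₀] fun _ => (1 : ℝ) := by
      rw [Asymptotics.isLittleO_one_iff]
      have h7 : Filter.Tendsto (fun x => c x - c x₀) (nhds x₀) (nhds (c x₀ - c x₀)) :=
        Filter.Tendsto.sub_const hc (c x₀)
      rwa [sub_self] at h7
    have h8 : (fun x => u' (x - x₀)) =O[nhds x₀] fun x => ‖x - x₀‖ :=
      (u'.isBigO_sub (nhds x₀) x₀).norm_right
    have h9 := h8.mul_isLittleO h6
    simpa using h9
  refine (h1.add h5).congr_left fun x => ?_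
  rw [h0]
  simp only [ContinuousLinearMap.smul_apply, smul_eq_mul]
  ring

/-- A continuous root of order `N` of a nonvanishing differentiable function is differentiable. -/
theorem root_diffAt {E : Type} [NormedAddCommGroup E] [NormedSpace ℂ E] {N : ℕ} (hN : N ≠ 0)
    (u v : E → ℂ) (x₀ : E) (hu : ContinuousAt u x₀) (hv : DifferentiableAt ℂ v x₀) (h0 : u x₀ ≠ 0)
    (h : ∀ᶠ x in nhds x₀, u x ^ N = v x) : DifferentiableAt ℂ u x₀ := by
  let Q : E → ℂ := fun x => ∑ i ∈ Finset.range N, u x ^ i * u x₀ ^ (N - 1 - i)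
  have hQc : ContinuousAt Q x₀ := by
    refine tendsto_finsetSum _ fun i _ => ?_
    exact (hu.pow i).mul continuousAt_const
  have hQ0 : Q x₀ ≠ 0 := by
    have h1 : Q x₀ = N * u x₀ ^ (N - 1) := by
      show ∑ i ∈ Finset.range N, u x₀ ^ i * u x₀ ^ (N - 1 - i) = _
      rw [Finset.sum_congr rfl fun i hi => by
        rw [← pow_add, show i + (N - 1 - i) = N - 1 from by
          have := Finset.mem_range.1 hi
          omega]]
      simp
    rw [h1]
    exact mul_ne_zero (Nat.cast_ne_zero.2 hN) (pow_ne_zero _ h0)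
  have hkey : ∀ x, Q x * (u x - u x₀) = u x ^ N - u x₀ ^ N := fun x => geom_sum₂_mul _ _ _
  have hd : DifferentiableAt ℂ (fun x => (v x - v x₀) * (Q x)⁻¹) x₀ :=
    (mul_cont (fun x => v x - v x₀) (fun x => (Q x)⁻¹) x₀ _ (hv.hasFDerivAt.sub_const (v x₀))
      (sub_self _) (hQc.inv₀ hQ0)).differentiableAt
  have hd2 : DifferentiableAt ℂ (fun x => u x₀ + (v x - v x₀) * (Q x)⁻¹) x₀ :=
    (differentiableAt_const _).add hd
  refine hd2.congr_of_eventuallyEq ?_
  filter_upwards [h, hQc.eventually_ne hQ0] with x hx hQx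
  have h2 := h.self_of_nhds
  rw [← hx, ← h2, ← hkey x, mul_comm (Q x), mul_assoc, mul_inv_cancel₀ hQx]
  ring

private theorem hol_q2 (hk : 2 ≤ k) (hn : 2 ≤ n) (f : SG k → SG n) (hf : HoloSG f)
    (D : Set (Fin k → ℂ)) (hD : IsOpen D) (hDC : D ⊆ Conf k) (σ : (Fin k → ℂ) → ℂ × ℂ)
    (hσ : ContinuousOn σ D) (hm : ∀ q ∈ D, σ q ∈ rootQ f q) :
    DifferentiableOn ℂ (fun q => (σ q).2) D := by
  have h0 : ∀ q ∈ D, (σ q).1 ≠ 0 := fun q hq => colQ_ne_zero hk (hDC hq) (hm q hq).1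
  have ht : DifferentiableOn ℂ (fun q => (σ q).1) D := by
    intro q hq
    refine (root_diffAt (N_ne hk) (fun q => (σ q).1) Dsc q ?_ ((differentiable_Dsc k) q)
      (h0 q hq) ?_).differentiableWithinAt
    · exact continuous_fst.continuousAt.comp (hσ.continuousAt (hD.mem_nhds hq))
    · filter_upwards [hD.mem_nhds hq] with x hx
      exact (hm x hx).1
  have hs : DifferentiableOn ℂ (fun q => sc (σ q).1 q) D := by
    unfold sc
    refine (differentiable_cf k).comp_differentiableOn ?_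
    rw [differentiableOn_pi]
    intro i
    refine (ht.inv h0).mul ?_
    fun_prop
  intro q₀ hq₀
  have hmem : ∀ q ∈ D, sc (σ q).1 q ∈ SG k := fun q hq => sc_mem hk (hDC hq) (hm q hq).1
  obtain ⟨U, hU, hzU, F, hF, hFf⟩ := hf ⟨sc (σ q₀).1 q₀, hmem q₀ hq₀⟩
  have hDo : IsOpen (D ∩ (fun q => sc (σ q).1 q) ⁻¹' U) := hs.continuousOn.isOpen_inter_preimage hD hU
  have h1 : DifferentiableOn ℂ (fun q => (σ q).2) (D ∩ (fun q => sc (σ q).1 q) ⁻¹' U) := by
    refine Pool.Agent.Helper93.L2.root_diff_n hn _ hDo (fun q => F (sc (σ q).1 q)) ?_ ?_ _ ?_ ?_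
    · exact hF.comp (hs.mono Set.inter_subset_left) fun q hq => hq.2
    · intro q hq
      have h := hFf ⟨sc (σ q).1 q, hmem q hq.1⟩ hq.2
      show F (sc (σ q).1 q) ∈ G0 n
      rw [← h]
      exact SG_subset_G0 n (f _).2
    · exact (continuous_snd.comp_continuousOn hσ).mono Set.inter_subset_left
    · intro q hq
      obtain ⟨-, h2, h3⟩ := hm q hq.1
      rw [hFf ⟨sc (σ q).1 q, h2⟩ hq.2] at h3
      exact h3
  exact (h1.differentiableAt (hDo.mem_nhds ⟨hq₀, hzU⟩)).differentiableWithinAt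

/-! ## finiteness, rigidity -/

private theorem roots_finite (hn : 2 ≤ n) (f : SG k → SG n) (z : SG k) :
    {x : ℂ | (pol n (f z : Fin (n - 1) → ℂ)).eval x = 0}.Finite := by
  obtain ⟨x₀, -, -, -, h4⟩ := exists_enum n hn (f z : Fin (n - 1) → ℂ) (SG_subset_G0 n (f z).2)
  refine (Set.finite_range x₀).subset ?_
  intro x hx
  exact (h4 x).1 hx

private theorem fin_q2 (hk : 2 ≤ k) (hn : 2 ≤ n) (f : SG k → SG n) (q : Fin k → ℂ) :
    (rootQ f q).Finite := by
  have h1 : rootQ f q ⊆ ⋃ t ∈ {t : ℂ | t ^ (k * (k - 1)) = Dsc q}, (fun x : ℂ => (t, x)) ''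
      {x : ℂ | ∃ h : sc t q ∈ SG k, (pol n (f ⟨sc t q, h⟩ : Fin (n - 1) → ℂ)).eval x = 0} := by
    rintro ⟨t, x⟩ ⟨h1, h2⟩
    exact Set.mem_biUnion h1 ⟨x, h2, rfl⟩
  refine Set.Finite.subset ((finite_nthRoots (N_ne hk) (Dsc q)).biUnion fun t _ => ?_) h1
  refine Set.Finite.image _ ?_
  by_cases h : sc t q ∈ SG k
  · refine (roots_finite hn f ⟨sc t q, h⟩).subset ?_
    intro x hx
    obtain ⟨_, hx⟩ := hx
    exact hx
  · refine Set.finite_empty.subset ?_
    rintro x ⟨h2, -⟩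
    exact h h2

private theorem rig_q2 (hk : 2 ≤ k) (hn : 2 ≤ n) (f : SG k → SG n) (q : Fin k → ℂ) (X : ℂ → ℂ × ℂ)
    (hX : Continuous X) (hm : ∀ s, X s ∈ rootQ f (fun i => Complex.exp s * q i)) (s : ℂ) :
    (X s).2 = (X 0).2 := by
  have hN := N_ne hk
  have hcol : ∀ s, (X s).1 ^ (k * (k - 1)) = Complex.exp s ^ (k * (k - 1)) * Dsc q := by
    intro s
    rw [← Dsc_smul]
    exact (hm s).1
  -- the colour
  have ht : ∀ s, (X s).1 * Complex.exp (-s) = (X 0).1 := by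
    intro s
    have h1 := Pool.Agent.Helper93.LN.eq_of_finite_range (S := (Set.univ : Set ℂ)) isPreconnected_univ
      (u := fun s => (X s).1 * Complex.exp (-s))
      ((continuous_fst.comp hX).mul (by fun_prop)).continuousOn
      (finite_nthRoots hN (Dsc q)) (fun s _ => by
        show ((X s).1 * Complex.exp (-s)) ^ (k * (k - 1)) = Dsc q
        rw [mul_pow, hcol s, mul_right_comm, ← mul_pow, ← Complex.exp_add, add_neg_cancel,
          Complex.exp_zero, one_pow, one_mul]) (Set.mem_univ s) (Set.mem_univ 0)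
    rw [h1, neg_zero, Complex.exp_zero, mul_one]
  have hsc : ∀ s, sc (X s).1 (fun i => Complex.exp s * q i) = sc (X 0).1 q := by
    intro s
    unfold sc
    congr 1
    funext i
    rw [← ht s, mul_inv, ← Complex.exp_neg, neg_neg]
    ring
  have h0 : sc (X 0).1 q ∈ SG k := by
    obtain ⟨-, h, -⟩ := hm 0
    rw [← hsc 0]
    exact h
  refine Pool.Agent.Helper93.LN.eq_of_finite_range (S := (Set.univ : Set ℂ)) isPreconnected_univ
    (u := fun s => (X s).2) (continuous_snd.comp hX).continuousOn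
    (roots_finite hn f ⟨sc (X 0).1 q, h0⟩) (fun s _ => ?_) (Set.mem_univ s) (Set.mem_univ 0)
  obtain ⟨-, h, h2⟩ := hm s
  have h3 : (⟨sc (X s).1 (fun i => Complex.exp s * q i), h⟩ : SG k) = ⟨sc (X 0).1 q, h0⟩ :=
    Subtype.ext (hsc s)
  show (pol n (f ⟨sc (X 0).1 q, h0⟩ : Fin (n - 1) → ℂ)).eval (X s).2 = 0
  rw [← h3]
  exact h2

/-- The coloured system of `f`. -/
noncomputable def q2Sys (hk : 2 ≤ k) (hn : 2 ≤ n) (f : SG k → SG n) (hf : HoloSG f) : CSys k where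
  S := rootQSys hk hn f hf
  C := colSys hk
  col _ _ _ hw := hw.1
  fin := (fin_q2 hk hn f (base k)).to_subtype
  hol D hD hDC σ hσ hm := hol_q2 hk hn f hf D hD hDC σ hσ hm
  rig q _ := ⟨fun _ => 1, continuous_const, fun _ => one_ne_zero, rfl, fun X hX hm s => by
    rw [one_mul]
    exact rig_q2 hk hn f q X hX hm s⟩
  eqc i hi := col_eqc hk i hi
  blk x y := col_blk hk x y

theorem q2_card (hk : 2 ≤ k) (hn : 2 ≤ n) (f : SG k → SG n) (hf : HoloSG f) (a : (q2Sys hk hn f hf).B) :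
    Nat.card {b : (q2Sys hk hn f hf).B // (q2Sys hk hn f hf).Same a b} = n := by
  obtain ⟨⟨t, x⟩, h1, h2, h3⟩ := a
  have h2' : sc t (base k) ∈ SG k := h2
  obtain ⟨x₀, hx1, -, -, hx4⟩ := exists_enum n hn (f ⟨sc t (base k), h2'⟩ : Fin (n - 1) → ℂ)
    (SG_subset_G0 n (f ⟨sc t (base k), h2'⟩).2)
  have hmem : ∀ i, ((t, x₀ i) : ℂ × ℂ) ∈ rootQ f (base k) := fun i => ⟨h1, h2', (hx4 _).2 ⟨i, rfl⟩⟩
  have hb : Function.Bijective (fun i : Fin n => (⟨⟨(t, x₀ i), hmem i⟩, rfl⟩ :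
      {b : (q2Sys hk hn f hf).B // (q2Sys hk hn f hf).Same ⟨(t, x), h1, h2, h3⟩ b})) := by
    refine ⟨fun i j hij => ?_, fun b => ?_⟩
    · have h4 : ((t, x₀ i) : ℂ × ℂ) = (t, x₀ j) := congrArg (fun b => ((b.1 : (q2Sys hk hn f hf).B) : ℂ × ℂ)) hij
      exact hx1 (Prod.mk.inj h4).2
    · obtain ⟨⟨⟨t', x'⟩, h4, h5, h6⟩, h7⟩ := b
      have h8 : t = t' := h7
      subst h8
      obtain ⟨i, hi⟩ := (hx4 x').1 h6
      refine ⟨i, Subtype.ext (Subtype.ext (Prod.ext rfl ?_))⟩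
      exact hi
  rw [← Nat.card_eq_of_bijective _ hb, Nat.card_eq_fintype_card, Fintype.card_fin]

theorem sq2 (hk : 4 < k) (hn : 3 ≤ n) : SQ2 k n := fun f hf =>
  ⟨q2Sys (by omega) (by omega) f hf, rfl, fun a => q2_card _ _ f hf a⟩

end Pool.Agent.Helper50.LN6
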