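import Pool.Agent.Helper2.LN.PolyB

/-!
# LN6 project (MP_730da0_ag): the space `SG_m`, holomorphic maps `SG_k → SG_n`, fibres of the Q2 system

`SG m` is the fibre `d_m = 1` of the discriminant on centred polynomials.  `HoloSG f`: locally `f` is the
restriction of a holomorphic map of an open subset of `ℂ^(k-1)`.  `sc t q = cf (t⁻¹ q)`; for
`t^(k(k-1)) = Dsc q` it is a point of `SG k`.  `colQ q` are these `t`, `rootQ f q` are the pairs `(t, w)` with
`w` a root of the polynomial `f (sc t q)`.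
-/

namespace Pool.Agent.Helper50.LN6

open Polynomial Pool.Agent.Helper2.LN

/-- The space `SG_m`, in the coordinates `(z_2, .., z_m)`. -/
def SG (m : ℕ) : Set (Fin (m - 1) → ℂ) := {w | (pol m w).discr = 1}

/-- `f : SG_k → SG_n` is holomorphic: near every point of `SG_k` it is the restriction of a holomorphic map
of an open subset of `ℂ^(k-1)`. -/
def HoloSG {k n : ℕ} (f : SG k → SG n) : Prop :=
  ∀ z : SG k, ∃ U : Set (Fin (k - 1) → ℂ), IsOpen U ∧ (z : Fin (k - 1) → ℂ) ∈ U ∧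
    ∃ F : (Fin (k - 1) → ℂ) → (Fin (n - 1) → ℂ), DifferentiableOn ℂ F U ∧
      ∀ x : SG k, (x : Fin (k - 1) → ℂ) ∈ U → (f x : Fin (n - 1) → ℂ) = F x

variable {k n : ℕ}

theorem HoloSG.continuous {f : SG k → SG n} (hf : HoloSG f) : Continuous f := by
  rw [continuous_induced_rng, continuous_iff_continuousAt]
  intro z
  obtain ⟨U, hU, hz, F, hF, he⟩ := hf z
  have h1 : ContinuousAt (fun x : SG k => F (x : Fin (k - 1) → ℂ)) z :=
    ContinuousAt.comp (f := fun x : SG k => (x : Fin (k - 1) → ℂ))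
      (hF.continuousOn.continuousAt (hU.mem_nhds hz)) continuous_subtype_val.continuousAt
  refine h1.congr ?_
  have h2 : ∀ᶠ x : SG k in nhds z, (x : Fin (k - 1) → ℂ) ∈ U :=
    continuous_subtype_val.continuousAt.eventually (hU.mem_nhds hz)
  filter_upwards [h2] with x hx
  exact (he x hx).symm

theorem SG_subset_G0 (m : ℕ) {w : Fin (m - 1) → ℂ} (hw : w ∈ SG m) : w ∈ G0 m := by
  show (pol m w).discr ≠ 0
  rw [show (pol m w).discr = 1 from hw]
  exact one_ne_zero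

/-- `cf (t⁻¹ q)`. -/
noncomputable def sc (t : ℂ) (q : Fin k → ℂ) : Fin (k - 1) → ℂ := cf (fun i => t⁻¹ * q i)

theorem sc_mem_iff (hk : 2 ≤ k) (t : ℂ) (q : Fin k → ℂ) :
    sc t q ∈ SG k ↔ (t⁻¹) ^ (k * (k - 1)) * Dsc q = 1 := by
  show (pol k (cf (fun i => t⁻¹ * q i))).discr = 1 ↔ _
  rw [discr_cf hk, Dsc_smul]

theorem sc_mem (hk : 2 ≤ k) {t : ℂ} {q : Fin k → ℂ} (hq : q ∈ Conf k)
    (ht : t ^ (k * (k - 1)) = Dsc q) : sc t q ∈ SG k := by
  rw [sc_mem_iff hk, inv_pow, ht]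
  exact inv_mul_cancel₀ ((Dsc_ne_zero q).2 hq)

theorem sc_perm (t : ℂ) (q : Fin k → ℂ) (π : Equiv.Perm (Fin k)) : sc t (q ∘ π) = sc t q :=
  cf_perm (fun i => t⁻¹ * q i) π

/-- The colours over `q`: the `k(k-1)`-th roots of the discriminant. -/
def colQ (k : ℕ) (q : Fin k → ℂ) : Set ℂ := {t | t ^ (k * (k - 1)) = Dsc q}

theorem colQ_perm (q : Fin k → ℂ) (π : Equiv.Perm (Fin k)) : colQ k (q ∘ π) = colQ k q := by
  unfold colQ
  rw [Dsc_perm]

/-- The fibre of the Q2 system of `f`: pairs (colour `t`, root `w` of the polynomial `f (cf (t⁻¹ q))`). -/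
def rootQ (f : SG k → SG n) (q : Fin k → ℂ) : Set (ℂ × ℂ) :=
  {p | p.1 ∈ colQ k q ∧ ∃ h : sc p.1 q ∈ SG k, (pol n (f ⟨sc p.1 q, h⟩ : Fin (n - 1) → ℂ)).eval p.2 = 0}

theorem rootQ_perm (f : SG k → SG n) (q : Fin k → ℂ) (π : Equiv.Perm (Fin k)) :
    rootQ f (q ∘ π) = rootQ f q := by
  unfold rootQ
  rw [colQ_perm]
  simp only [sc_perm]

theorem colQ_ne_zero {t : ℂ} {q : Fin k → ℂ} (hk : 2 ≤ k) (hq : q ∈ Conf k) (ht : t ∈ colQ k q) : t ≠ 0 := by
  rintro rfl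
  have h1 : (0 : ℂ) ^ (k * (k - 1)) = Dsc q := ht
  rw [zero_pow (by
    have h2 : 0 < k * (k - 1) := Nat.mul_pos (by omega) (by omega)
    omega)] at h1
  exact (Dsc_ne_zero q).2 hq h1.symm

/-- Every point of `SG k` is `sc 1 q = cf q` for a configuration `q` with discriminant `1`. -/
theorem exists_cf_of_SG (hk : 2 ≤ k) {z : Fin (k - 1) → ℂ} (hz : z ∈ SG k) :
    ∃ q : Fin k → ℂ, q ∈ Conf k ∧ cf q = z ∧ Dsc q = 1 := by
  obtain ⟨q, -, h2⟩ := exists_roots k hk z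
  have h3 : Dsc q = 1 := by
    rw [← discr_cf hk, h2]
    exact hz
  refine ⟨q, (Dsc_ne_zero q).1 ?_, h2, h3⟩
  rw [h3]
  exact one_ne_zero

end Pool.Agent.Helper50.LN6
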